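import Mathlib

/-!
# Project GF: linear algebra for the end of the proof
-/

set_option autoImplicit false

namespace Pool.Agent.Y113

lemma exists_matrix {N : ℕ} {κ : Type*} (a : Fin N → ℤ) (ha : a ≠ 0) (z : κ → Fin N → ℤ)
    (hz : ∀ v : Fin N → ℚ, (∀ k, ∑ j, (z k j : ℚ) * v j = 0) → v = 0) :
    ∃ (M : Matrix (Fin N) (Fin N) ℤ) (r₀ : Fin N), M.det ≠ 0 ∧ M r₀ = a ∧ ∀ r, r ≠ r₀ → ∃ k, M r = z k := by
  classical
  let c : (Fin N → ℤ) → (Fin N → ℚ) := fun v j => (v j : ℚ)
  have hc : Function.Injective c := by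
    intro v w h
    funext j
    have := congrFun h j
    simp only [c] at this
    exact_mod_cast this
  have hac : c a ≠ 0 := by
    intro h
    apply ha
    apply hc
    rw [h]
    funext j
    simp [c]
  set s : Set (Fin N → ℚ) := {c a} with hs
  set t : Set (Fin N → ℚ) := insert (c a) (Set.range fun k => c (z k)) with ht
  have hli : LinearIndepOn ℚ id s := by
    rw [hs]
    exact LinearIndepOn.singleton hac
  have hst : s ⊆ t := by
    intro x hx
    rw [hs, Set.mem_singleton_iff] at hx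
    rw [hx]; exact Set.mem_insert _ _
  obtain ⟨b, hbt, hsb, htb, hbli⟩ := exists_linearIndepOn_id_extension hli hst
  -- span of t is everything
  have hspan : Submodule.span ℚ t = ⊤ := by
    by_contra hne
    obtain ⟨f, hf0, hf⟩ := Submodule.exists_le_ker_of_lt_top (Submodule.span ℚ t) (lt_top_iff_ne_top.2 hne)
    apply hf0
    have h1 : ∀ x : Fin N → ℚ, f x = ∑ j, x j * f (Pi.single j 1) := by
      intro x
      conv_lhs => rw [pi_eq_sum_univ' x]
      rw [map_sum]
      refine Finset.sum_congr rfl fun j _ => ?_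
      rw [map_smul, smul_eq_mul]
    have h2 := hz (fun j => f (Pi.single j 1)) (by
      intro k
      have h3 : f (c (z k)) = 0 := by
        have : c (z k) ∈ LinearMap.ker f := hf (Submodule.subset_span (Set.mem_insert_of_mem _ ⟨k, rfl⟩))
        simpa using this
      rw [h1] at h3
      exact h3)
    apply LinearMap.ext
    intro x
    rw [h1]
    simp only [LinearMap.zero_apply]
    refine Finset.sum_eq_zero fun j _ => ?_
    have := congrFun h2 j
    simp only [Pi.zero_apply] at this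
    rw [this, mul_zero]
  have hbspan : ⊤ ≤ Submodule.span ℚ b := by
    rw [← hspan]
    exact Submodule.span_le.2 htb
  have hbspan' : ⊤ ≤ Submodule.span ℚ (Set.range (fun x : b => (x : Fin N → ℚ))) := by
    rw [Subtype.range_coe]; exact hbspan
  let bas : Module.Basis b ℚ (Fin N → ℚ) := Module.Basis.mk hbli hbspan'
  have : Finite b := Module.Finite.finite_basis bas
  have : Fintype b := Fintype.ofFinite b
  have hcard : Fintype.card b = N := by
    have := Module.finrank_eq_card_basis bas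
    simpa using this.symm
  let e : Fin N ≃ b := (Fintype.equivFinOfCardEq hcard).symm
  have hpre : ∀ x ∈ b, ∃ v : Fin N → ℤ, c v = x ∧ (x = c a → v = a) ∧ (x ≠ c a → ∃ k, v = z k) := by
    intro x hx
    by_cases hxa : x = c a
    · exact ⟨a, hxa.symm, fun _ => rfl, fun h => absurd hxa h⟩
    · rcases hbt hx with h | ⟨k, hk⟩
      · exact absurd h hxa
      · exact ⟨z k, hk, fun h => absurd h hxa, fun _ => ⟨k, rfl⟩⟩
  choose! pre hpre1 hpre2 hpre3 using hpre
  have hab : c a ∈ b := hsb (by rw [hs]; rfl)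
  refine ⟨Matrix.of fun r => pre (e r : Fin N → ℚ), e.symm ⟨c a, hab⟩, ?_, ?_, ?_⟩
  · have h1 : LinearIndependent ℚ (Matrix.of fun r : Fin N => (e r : Fin N → ℚ)).row := by
      have := hbli.comp e e.injective
      exact this
    have h2 := Matrix.linearIndependent_rows_iff_isUnit.1 h1
    rw [Matrix.isUnit_iff_isUnit_det] at h2
    have h3 : (Matrix.of fun r : Fin N => (e r : Fin N → ℚ)) =
        (Matrix.of fun r => pre (e r : Fin N → ℚ) : Matrix (Fin N) (Fin N) ℤ).map (Int.cast : ℤ → ℚ) := by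
      ext r j
      have := congrFun (hpre1 (e r) (e r).2) j
      exact this.symm
    rw [h3] at h2
    intro h0
    have h4 := Int.cast_det (R := ℚ) (Matrix.of fun r => pre (e r : Fin N → ℚ) : Matrix (Fin N) (Fin N) ℤ)
    rw [h0] at h4
    rw [← h4] at h2
    simp at h2
  · show pre (e (e.symm ⟨c a, hab⟩) : Fin N → ℚ) = a
    rw [Equiv.apply_symm_apply]
    exact hpre2 _ hab rfl
  · intro r hr
    apply hpre3 _ (e r).2
    intro h
    apply hr
    apply e.injective
    rw [Equiv.apply_symm_apply]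
    exact Subtype.ext h

/-- bound for a determinant by bounds for the rows -/
lemma det_bound {N : ℕ} (B : Matrix (Fin N) (Fin N) ℝ) (ρ : Fin N → ℝ) (h : ∀ r j, |B r j| ≤ ρ r) :
    |B.det| ≤ (N.factorial : ℝ) * ∏ r, ρ r := by
  rw [Matrix.det_apply]
  refine (Finset.abs_sum_le_sum_abs _ _).trans ?_
  have h1 : ∀ σ : Equiv.Perm (Fin N), |Equiv.Perm.sign σ • ∏ i, B (σ i) i| ≤ ∏ r, ρ r := by
    intro σ
    have h2 : |Equiv.Perm.sign σ • ∏ i, B (σ i) i| = ∏ i, |B (σ i) i| := by
      rw [← Finset.abs_prod]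
      rcases Int.units_eq_one_or (Equiv.Perm.sign σ) with h | h <;> rw [h] <;> simp
    rw [h2]
    calc ∏ i, |B (σ i) i| ≤ ∏ i, ρ (σ i) := Finset.prod_le_prod (fun i _ => abs_nonneg _) fun i _ => h _ _
      _ = ∏ r, ρ r := Equiv.prod_comp σ ρ
  refine (Finset.sum_le_sum fun σ _ => h1 σ).trans ?_
  simp [Finset.card_univ, Fintype.card_perm]

lemma det_ineq {N : ℕ} (M : Matrix (Fin N) (Fin N) ℤ) (hM : M.det ≠ 0) (r₀ i₀ : Fin N) (Y : Fin N → ℝ) (hY : Y i₀ = 1)
    (h0 : ∑ j, (M r₀ j : ℝ) * Y j = 0) (A X L : ℝ) (hA : 0 ≤ A) (hX : 1 ≤ X) (hL : 0 ≤ L) (hMA : ∀ j, |(M r₀ j : ℝ)| ≤ A)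
    (hMX : ∀ r, r ≠ r₀ → ∀ j, |(M r j : ℝ)| ≤ X) (hML : ∀ r, r ≠ r₀ → |∑ j, (M r j : ℝ) * Y j| ≤ L) :
    1 ≤ N * (N.factorial * (A * X ^ (N - 2)) * L) := by
  classical
  set R : Matrix (Fin N) (Fin N) ℝ := M.map (Int.cast : ℤ → ℝ) with hR
  have hdet : R.det = ((M.det : ℤ) : ℝ) := (Int.cast_det (R := ℝ) M).symm
  have h1 : (1 : ℝ) ≤ |R.det| := by
    rw [hdet]
    exact_mod_cast Int.one_le_abs hM
  have h2 : R.det * Y i₀ = ∑ r, R.adjugate i₀ r * (R.mulVec Y) r := by
    have h3 : R.adjugate.mulVec (R.mulVec Y) = R.det • Y := by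
      rw [Matrix.mulVec_mulVec, Matrix.adjugate_mul, Matrix.smul_mulVec, Matrix.one_mulVec]
    have := congrFun h3 i₀
    rw [Pi.smul_apply, smul_eq_mul] at this
    rw [← this]
    rfl
  rw [hY, mul_one] at h2
  rw [h2] at h1
  refine h1.trans ((Finset.abs_sum_le_sum_abs _ _).trans ?_)
  have h3 : ∀ r : Fin N, |R.adjugate i₀ r * (R.mulVec Y) r| ≤ N.factorial * (A * X ^ (N - 2)) * L := by
    intro r
    have hmv : (R.mulVec Y) r = ∑ j, (M r j : ℝ) * Y j := rfl
    by_cases hr : r = r₀
    · rw [hmv, hr, h0, mul_zero, abs_zero]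
      positivity
    · rw [abs_mul, hmv]
      refine mul_le_mul ?_ (hML r hr) (abs_nonneg _) (by positivity)
      rw [Matrix.adjugate_apply]
      refine (det_bound _ (fun s => if s = r then 1 else if s = r₀ then A else X) ?_).trans (le_of_eq ?_)
      · intro s j
        by_cases hs : s = r
        · rw [if_pos hs, hs, Matrix.updateRow_self]
          by_cases hj : j = i₀
          · rw [hj, Pi.single_eq_same, abs_one]
          · rw [Pi.single_eq_of_ne hj, abs_zero]; exact zero_le_one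
        · rw [if_neg hs, Matrix.updateRow_ne hs]
          by_cases hs2 : s = r₀
          · rw [if_pos hs2, hs2]; exact hMA j
          · rw [if_neg hs2]; exact hMX s hs2 j
      · congr 1
        rw [← Finset.mul_prod_erase Finset.univ _ (Finset.mem_univ r), if_pos rfl, one_mul]
        rw [← Finset.mul_prod_erase (Finset.univ.erase r) _ (Finset.mem_erase.2 ⟨Ne.symm hr, Finset.mem_univ r₀⟩),
          if_neg (Ne.symm hr), if_pos rfl]
        congr 1
        rw [Finset.prod_congr rfl (g := fun _ => X) (fun s hs => by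
          rw [Finset.mem_erase, Finset.mem_erase] at hs
          rw [if_neg hs.2.1, if_neg hs.1])]
        rw [Finset.prod_const, Finset.card_erase_of_mem (Finset.mem_erase.2 ⟨Ne.symm hr, Finset.mem_univ r₀⟩),
          Finset.card_erase_of_mem (Finset.mem_univ r), Finset.card_univ, Fintype.card_fin]
        congr 1
  calc ∑ r, |R.adjugate i₀ r * (R.mulVec Y) r| ≤ ∑ _r : Fin N, N.factorial * (A * X ^ (N - 2)) * L :=
        Finset.sum_le_sum fun r _ => h3 r
    _ = _ := by simp

end Pool.Agent.Y113
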