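import Pool.Agent.Y113.G.Est
import Pool.Agent.Y113.G.Lin

/-!
# Project GF: the main theorem on G-systems
-/

set_option autoImplicit false

open PowerSeries Finset.HasAntidiagonal

namespace Pool.Agent.Y113

/-- size of the coefficients of the form -/
lemma form_size {N : ℕ} {C A : ℝ} (hC : 1 ≤ C) (hA : 0 ≤ A) {y : Fin N → ℚ⟦X⟧}
    (size : ∀ i m, |((coeff m (y i) : ℚ) : ℝ)| ≤ C ^ (m + 1)) {P : Fin N → Polynomial ℤ} {n : ℕ}
    (hP : ∀ i, (P i).natDegree ≤ n) (hPc : ∀ i l, |(((P i).coeff l : ℤ) : ℝ)| ≤ A) (m : ℕ) :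
    |((coeff m (∑ i, ps (P i) * y i) : ℚ) : ℝ)| ≤ (N * (n + 1) * A * C) * C ^ m := by
  rw [map_sum]
  push_cast
  refine (Finset.abs_sum_le_sum_abs _ _).trans ?_
  have h1 : ∀ i : Fin N, |((coeff m (ps (P i) * y i) : ℚ) : ℝ)| ≤ (n + 1) * A * C * C ^ m := by
    intro i
    rw [coeff_mul, Finset.Nat.sum_antidiagonal_eq_sum_range_succ_mk]
    push_cast
    refine (Finset.abs_sum_le_sum_abs _ _).trans ?_
    have h2 : ∀ l ∈ Finset.range (m + 1), |((coeff l (ps (P i)) : ℚ) : ℝ) * ((coeff (m - l) (y i) : ℚ) : ℝ)| ≤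
        if l < n + 1 then A * (C * C ^ m) else 0 := by
      intro l hl
      rw [Finset.mem_range] at hl
      have h3 : ((coeff l (ps (P i)) : ℚ) : ℝ) = (((P i).coeff l : ℤ) : ℝ) := by
        simp [ps, Polynomial.coeff_coe]
      rw [h3, abs_mul]
      split_ifs with h
      · refine mul_le_mul (hPc i l) ?_ (abs_nonneg _) hA
        refine (size i _).trans ?_
        rw [← pow_succ']
        exact pow_le_pow_right₀ hC (by omega)
      · rw [Polynomial.coeff_eq_zero_of_natDegree_lt (by have := hP i; omega)]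
        simp
    refine (Finset.sum_le_sum h2).trans ?_
    rw [← Finset.sum_filter, Finset.sum_const, nsmul_eq_mul]
    have h4 : ((Finset.range (m + 1)).filter (fun l => l < n + 1)).card ≤ n + 1 := by
      calc ((Finset.range (m + 1)).filter (fun l => l < n + 1)).card ≤ (Finset.range (n + 1)).card := by
            apply Finset.card_le_card
            intro l hl
            rw [Finset.mem_filter] at hl
            exact Finset.mem_range.2 hl.2
        _ = n + 1 := Finset.card_range _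
    have h5 : (((Finset.range (m + 1)).filter (fun l => l < n + 1)).card : ℝ) ≤ (n : ℝ) + 1 := by exact_mod_cast h4
    calc _ ≤ ((n : ℝ) + 1) * (A * (C * C ^ m)) := mul_le_mul_of_nonneg_right h5 (by positivity)
      _ = _ := by ring
  refine (Finset.sum_le_sum fun i _ => h1 i).trans (le_of_eq ?_)
  simp
  ring

section Core

variable {N q : ℕ} {C : ℝ} {T : Polynomial ℤ} {y : Fin N → ℚ⟦X⟧}

/-- the estimate for one value of the parameter `ν` -/
lemma core (hG : GSys q C T y) (i₀ : Fin N) (h1 : y i₀ = 1) (t : ℕ) (hTt : 8 * C ≤ (t : ℝ))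
    (c₁ : ℕ)
    (hrank : ∀ (n m K : ℕ) (P : Fin N → Polynomial ℚ), P ≠ 0 → (∀ i, (P i).natDegree ≤ n) →
      (∀ l < m, coeff l (∑ i, (P i : ℚ⟦X⟧) * y i) = 0) → (N - 1) * n + c₁ < m → N * n + c₁ < m + K →
      ∀ (g : ℚ) (G : ℕ → Fin N → Fin N → Polynomial ℚ), g ≠ 0 →
      (∀ s ≤ K, ∀ i, PowerSeries.C g * (((T.map (Int.castRingHom ℚ) : Polynomial ℚ) : ℚ⟦X⟧) ^ s * hd s (y i)) =
        ∑ j, (G s i j : ℚ⟦X⟧) * y j) →
      ∀ v : Fin N → ℚ, (∀ k ≤ K, ∑ j, (Pd (T.map (Int.castRingHom ℚ)) G P k j).eval (1 / (t : ℚ)) * v j = 0) → v = 0)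
    (a : Fin N → ℤ) (ha0 : a ≠ 0) (ha : ∑ i, (a i : ℝ) * ev t (y i) = 0) (A : ℝ) (hA : ∀ i, |(a i : ℝ)| ≤ A)
    (L ν : ℕ) (hL : L = 2 * q * N + 4) (hν : c₁ < ν) :
    1 ≤ (N : ℝ) * (N.factorial * (A *
      ((t : ℝ) ^ (L * ν + q * (2 * ν)) * ((2 * C) ^ ((2 * q + 3) * (2 * ν) + 2 * (L * ν) + N + 1) *
        ((N * (L * ν + 1) : ℕ) * C ^ (2 * ((N * L - 1) * ν) + 1)) ^ (N * L))) ^ (N - 2)) *
      ((t : ℝ) ^ (L * ν + q * (2 * ν)) * ((2 * C) ^ (2 * ν + 1) * ((2 * C) ^ ((q + 1) * (2 * ν)) *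
        (2 * ((N * ((L * ν : ℕ) + 1) * ((N * (L * ν + 1) : ℕ) * C ^ (2 * ((N * L - 1) * ν) + 1)) ^ (N * L) * C) *
          (4 * C) ^ ((N * L - 1) * ν) * (1 / (t : ℝ)) ^ ((N * L - 1) * ν - 2 * ν))))))) := by
  have hC := hG.one_le
  have hNpos : 0 < N := i₀.pos
  have htpos : (0 : ℝ) < t := by linarith
  have htnat : 0 < t := by exact_mod_cast htpos
  have hL4 : 4 ≤ L := by omega
  have hνpos : 0 < ν := by omega
  have hNL : 4 ≤ N * L := le_trans hL4 (Nat.le_mul_of_pos_left L hNpos)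
  set n := L * ν with hn
  set m₀ := (N * L - 1) * ν with hm₀
  set K := 2 * ν with hK
  have hNLn : N * n = N * L * ν := by rw [hn]; ring
  have hm₀' : m₀ + ν = N * n := by
    rw [hNLn, hm₀, Nat.sub_mul, one_mul]
    have : ν ≤ N * L * ν := Nat.le_mul_of_pos_left ν (by omega)
    omega
  have hm₀pos : 0 < m₀ := by
    rw [hm₀]; exact Nat.mul_pos (by omega) hνpos
  have hmn : m₀ < N * (n + 1) := by
    have : N * (n + 1) = N * n + N := by ring
    omega
  have he : m₀ ≤ (N * L) * (N * (n + 1) - m₀) := by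
    have h2 : N * (n + 1) - m₀ = ν + N := by
      have : N * (n + 1) = N * n + N := by ring
      omega
    rw [h2]
    calc m₀ ≤ N * n := by omega
      _ = N * L * ν := hNLn
      _ ≤ N * L * (ν + N) := Nat.mul_le_mul_left _ (by omega)
  obtain ⟨P, hP0, hPn, hPc, hPv⟩ := siegel_poly hC hG.size hG.den n m₀ (N * L) hm₀pos hmn he
  set A₀ : ℝ := ((N * (n + 1) : ℕ) * C ^ (2 * m₀ + 1)) ^ (N * L) with hA₀
  have hA₀0 : 0 ≤ A₀ := by positivity
  obtain ⟨g, hg0, hgC, hgG⟩ := hG.der K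
  choose! G hGd hGc hGe using hgG
  -- rational versions
  have hTmap : ps T = ((T.map (Int.castRingHom ℚ) : Polynomial ℚ) : ℚ⟦X⟧) := rfl
  have hPQ0 : (fun i => (P i).map (Int.castRingHom ℚ)) ≠ 0 := by
    intro h
    apply hP0
    funext i
    have h2 := congrFun h i
    simp only [Pi.zero_apply] at h2
    exact (Polynomial.map_eq_zero_iff (Int.cast_injective)).1 h2
  have hsp := hrank n m₀ K (fun i => (P i).map (Int.castRingHom ℚ)) hPQ0
    (fun i => (Polynomial.natDegree_map_le).trans (hPn i)) hPv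
    (by
      have h2 : (N - 1) * n + n = N * n := by
        have h3 : (N - 1 + 1) * n = N * n := by rw [Nat.sub_add_cancel hNpos]
        rw [← h3]; ring
      have h4 : 2 * ν ≤ n := by rw [hn]; exact Nat.mul_le_mul_right _ (by omega)
      omega)
    (by omega) (g : ℚ) (fun s i j => (G s i j).map (Int.castRingHom ℚ)) (by exact_mod_cast hg0.ne')
    (by
      intro s hs i
      have h2 := hGe s hs i
      rw [← map_natCast (PowerSeries.C (R := ℚ))] at h2
      exact h2)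
  -- integer vectors
  have hdegPd : ∀ k ≤ K, ∀ j, (PdZ T G P k j).natDegree ≤ n + q * K := fun k hk j =>
    natDegree_PdZ hG.degT hPn (fun s hs i j => hGd s hs i j) hk j
  have hint : ∀ (k : Fin (K + 1)) (j : Fin N), ∃ z : ℤ, (z : ℝ) = (t : ℝ) ^ (n + q * K) *
      Polynomial.aeval (1 / (t : ℝ)) (PdZ T G P k j) := fun k j =>
    int_eval (hdegPd k (by have := k.2; omega) j) htnat
  choose z hz using hint
  have hzorth : ∀ v : Fin N → ℚ, (∀ k, ∑ j, (z k j : ℚ) * v j = 0) → v = 0 := by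
    intro v hv
    apply hsp v
    intro k hk
    have h2 := hv ⟨k, by omega⟩
    have h3 : ∀ j, ((z ⟨k, by omega⟩ j : ℤ) : ℚ) = (t : ℚ) ^ (n + q * K) *
        (Pd (T.map (Int.castRingHom ℚ)) (fun s i j => (G s i j).map (Int.castRingHom ℚ))
          (fun i => (P i).map (Int.castRingHom ℚ)) k j).eval (1 / (t : ℚ)) := by
      intro j
      have h4 := hz ⟨k, by omega⟩ j
      rw [aeval_map_eval, PdZ_map] at h4
      exact_mod_cast h4
    simp only [h3, mul_assoc] at h2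
    rw [← Finset.mul_sum] at h2
    rcases mul_eq_zero.1 h2 with h5 | h5
    · exact absurd h5 (pow_ne_zero _ (by exact_mod_cast htnat.ne'))
    · exact h5
  obtain ⟨M, r₀, hMdet, hMr₀, hMr⟩ := exists_matrix a ha0 z hzorth
  -- bounds
  have hx0 : (0 : ℝ) ≤ 1 / t := by positivity
  have hx1 : (1 : ℝ) / t ≤ 1 := by rw [div_le_one htpos]; linarith
  have hC2 : C ≤ 2 * C := by linarith
  have hD2 : 2 ≤ 2 * C := by linarith
  have hD1 : 1 ≤ 2 * C := by linarith
  have hzb : ∀ k j, |((z k j : ℤ) : ℝ)| ≤ (t : ℝ) ^ (n + q * K) * ((2 * C) ^ ((2 * q + 3) * K + 2 * n + N + 1) * A₀) := by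
    intro k j
    rw [hz, abs_mul, abs_of_nonneg (pow_nonneg htpos.le _)]
    refine mul_le_mul_of_nonneg_left ?_ (by positivity)
    exact PdZ_bound hD2 hC2 hC hA₀0 hx0 hx1 hG.degT hG.sizeT hPn hPc (fun s hs i j => hGd s hs i j)
      (fun s hs i j l => hGc s hs i j l) (by have := k.2; omega) j
  -- the small forms
  have hcvy : ∀ i, Cv t (y i) := fun i => Cv.of_bound htpos (A := C) (B := C) (by linarith) (by linarith) (fun m => by
    rw [← pow_succ']; exact hG.size i m)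
  set R := ∑ i, ps (P i) * y i with hR
  have hform : ∀ k ≤ K, (g : ℝ) * (Polynomial.aeval (1 / (t : ℝ)) T ^ k * ev t (hd k R)) =
      ∑ j, Polynomial.aeval (1 / (t : ℝ)) (PdZ T G P k j) * ev t (y j) := by
    intro k hk
    have hbound := ev_hd_bound htpos (f := R) (A := N * (n + 1) * A₀ * C) (B := C) (by positivity) hC (by linarith)
      (form_size hC hA₀0 hG.size hPn hPc) (m₀ := m₀) (k := k) (by
        have : K ≤ m₀ := by
          rw [hK, hm₀]; exact Nat.mul_le_mul_right _ (by omega)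
        omega) hPv
    have hps : ∀ Q : Polynomial ℤ, Cv (t : ℝ) (ps Q) ∧ ev (t : ℝ) (ps Q) = Polynomial.aeval (1 / (t : ℝ)) Q := by
      intro Q
      refine ⟨Cv.coe _, ?_⟩
      rw [ps, ev_coe]
      rw [Polynomial.aeval_def, Polynomial.aeval_def, Polynomial.eval₂_map]
      congr 1
    have hPdeq := Pd_eq Polynomial.coeToPowerSeries.ringHom coe_deriv' (T := T.map (Int.castRingHom ℚ)) (Y := y)
      (G := fun s i j => (G s i j).map (Int.castRingHom ℚ)) (K := K) (g := (g : ℚ⟦X⟧)) (fun s hs i => hGe s hs i)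
      (fun i => (P i).map (Int.castRingHom ℚ)) k hk
    simp only [← PdZ_map] at hPdeq
    have hPdeq' : (g : ℚ⟦X⟧) * (ps T ^ k * hd k R) = ∑ j, ps (PdZ T G P k j) * y j := hPdeq
    have hev := congrArg (ev (t : ℝ)) hPdeq'
    have hgC' : Cv (t : ℝ) ((g : ℚ⟦X⟧)) ∧ ev (t : ℝ) ((g : ℚ⟦X⟧)) = g := by
      rw [← map_natCast (PowerSeries.C (R := ℚ))]
      exact ⟨Cv.C _, by rw [ev_C]; simp⟩
    rw [hgC'.1.ev_mul htpos (((hps T).1.pow htpos k).mul htpos hbound.1),
      ((hps T).1.pow htpos k).ev_mul htpos hbound.1, (hps T).1.ev_pow htpos, hgC'.2, (hps T).2,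
      Cv.ev_sum htpos _ _ (fun j _ => (hps _).1.mul htpos (hcvy j))] at hev
    rw [hev]
    refine Finset.sum_congr rfl fun j _ => ?_
    rw [(hps _).1.ev_mul htpos (hcvy j), (hps _).2]
  set LL : ℝ := (t : ℝ) ^ (n + q * K) * ((2 * C) ^ (K + 1) * ((2 * C) ^ ((q + 1) * K) *
        (2 * ((N * ((n : ℕ) + 1) * A₀ * C) *
          (4 * C) ^ m₀ * (1 / (t : ℝ)) ^ (m₀ - K))))) with hLL
  have hLL0 : 0 ≤ LL := by positivity
  have hsmall : ∀ k : Fin (K + 1), |∑ j, (z k j : ℝ) * ev t (y j)| ≤ LL := by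
    intro k
    have hk : (k : ℕ) ≤ K := by have := k.2; omega
    have h2 : ∑ j, (z k j : ℝ) * ev t (y j) = (t : ℝ) ^ (n + q * K) *
        ((g : ℝ) * (Polynomial.aeval (1 / (t : ℝ)) T ^ (k : ℕ) * ev t (hd k R))) := by
      rw [hform k hk, Finset.mul_sum]
      refine Finset.sum_congr rfl fun j _ => ?_
      rw [hz]; ring
    rw [h2, abs_mul, abs_of_nonneg (pow_nonneg htpos.le _), hLL]
    refine mul_le_mul_of_nonneg_left ?_ (by positivity)
    rw [abs_mul, abs_mul, Nat.abs_cast, abs_pow]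
    have hKm : K ≤ m₀ := by rw [hK, hm₀]; exact Nat.mul_le_mul_right _ (by omega)
    have hbound := (ev_hd_bound htpos (f := R) (A := N * (n + 1) * A₀ * C) (B := C) (by positivity) hC (by linarith)
      (form_size hC hA₀0 hG.size hPn hPc) (m₀ := m₀) (k := k) (by omega) hPv).2
    have hTx : |Polynomial.aeval (1 / (t : ℝ)) T| ≤ (2 * C) ^ (q + 1) := by
      refine (aeval_bound hx0 hx1 hG.degT hG.sizeT).trans ?_
      rw [pow_succ]
      refine mul_le_mul ?_ hC2 (by linarith) (by positivity)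
      calc (q : ℝ) + 1 ≤ 2 ^ q := by exact_mod_cast (Nat.lt_two_pow_self : q < 2 ^ q)
        _ ≤ (2 * C) ^ q := pow_le_pow_left₀ (by norm_num) hD2 q
    refine mul_le_mul ?_ (mul_le_mul ?_ ?_ (abs_nonneg _) (by positivity)) (by positivity) (by positivity)
    · exact hgC.trans (pow_le_pow_left₀ (by linarith) hC2 _)
    · calc |Polynomial.aeval (1 / (t : ℝ)) T| ^ (k : ℕ) ≤ ((2 * C) ^ (q + 1)) ^ (k : ℕ) :=
            pow_le_pow_left₀ (abs_nonneg _) hTx _
        _ = (2 * C) ^ ((q + 1) * k) := by rw [← pow_mul]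
        _ ≤ (2 * C) ^ ((q + 1) * K) := pow_le_pow_right₀ hD1 (Nat.mul_le_mul_left _ hk)
    · refine hbound.trans ?_
      refine mul_le_mul_of_nonneg_left ?_ (by norm_num)
      refine mul_le_mul_of_nonneg_left ?_ (by positivity)
      exact pow_le_pow_of_le_one hx0 hx1 (by omega)
  have hA0 : 0 ≤ A := (abs_nonneg _).trans (hA i₀)
  have hnatN : (1 : ℝ) ≤ ((N * (n + 1) : ℕ) : ℝ) := by
    exact_mod_cast (Nat.mul_pos hNpos (Nat.succ_pos n))
  have hA₀1 : 1 ≤ A₀ := by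
    rw [hA₀]
    apply one_le_pow₀
    have : (1 : ℝ) ≤ C ^ (2 * m₀ + 1) := one_le_pow₀ hC
    nlinarith
  have hX1 : 1 ≤ (t : ℝ) ^ (n + q * K) * ((2 * C) ^ ((2 * q + 3) * K + 2 * n + N + 1) * A₀) := by
    have h2 : (1 : ℝ) ≤ (t : ℝ) ^ (n + q * K) := one_le_pow₀ (by linarith)
    have h3 : (1 : ℝ) ≤ (2 * C) ^ ((2 * q + 3) * K + 2 * n + N + 1) := one_le_pow₀ hD1
    have h4 : (1 : ℝ) ≤ (2 * C) ^ ((2 * q + 3) * K + 2 * n + N + 1) * A₀ := by nlinarith
    nlinarith
  refine det_ineq M hMdet r₀ i₀ (fun j => ev t (y j)) (by simp only [h1]; exact ev_one) ?_ A _ LL hA0 hX1 hLL0 ?_ ?_ ?_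
  · rw [hMr₀]; exact ha
  · intro j; rw [hMr₀]; exact hA j
  · intro r hr j
    obtain ⟨k, hk⟩ := hMr r hr
    rw [hk]; exact hzb k j
  · intro r hr
    obtain ⟨k, hk⟩ := hMr r hr
    rw [hk]; exact hsmall k

end Core

end Pool.Agent.Y113
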